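import Mathlib

/-!
# The scalar inequality behind the Lu-Wenzel conjecture (helper22)
-/

namespace H22.LW

open Finset

/-- Rank-one splitting of the Cauchy kernel `1/(r a + r b)`. -/
theorem cauchy_ident {ι : Type*} (s : Finset ι) (r c : ι → ℝ) (hr : ∀ a ∈ s, 0 < r a)
    (η : ℝ) (hη : 0 < η) :
    ∑ a ∈ s, ∑ b ∈ s, c a * c b / (r a + r b)
      = 2 * η * (∑ a ∈ s, c a / (r a + η)) ^ 2
        + ∑ a ∈ s, ∑ b ∈ s, (c a * (r a - η) / (r a + η)) * (c b * (r b - η) / (r b + η))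
            / (r a + r b) := by
  rw [sq, Finset.sum_mul_sum, Finset.mul_sum, ← Finset.sum_add_distrib]
  refine Finset.sum_congr rfl fun a ha => ?_
  rw [Finset.mul_sum, ← Finset.sum_add_distrib]
  refine Finset.sum_congr rfl fun b hb => ?_
  have h1 := hr a ha
  have h2 := hr b hb
  have h3 : r a + r b ≠ 0 := by positivity
  have h4 : r a + η ≠ 0 := by positivity
  have h5 : r b + η ≠ 0 := by positivity
  field_simp
  ring

/-- The Cauchy kernel is positive semidefinite. -/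
theorem cauchy_psd {ι : Type*} [DecidableEq ι] (s : Finset ι) (r : ι → ℝ) (hr : ∀ a ∈ s, 0 < r a) :
    ∀ c : ι → ℝ, 0 ≤ ∑ a ∈ s, ∑ b ∈ s, c a * c b / (r a + r b) := by
  induction s using Finset.induction_on with
  | empty => intro c; simp
  | @insert i s hi ih =>
    intro c
    rw [cauchy_ident (insert i s) r c hr (r i) (hr i (Finset.mem_insert_self i s))]
    have hri : 0 < r i := hr i (Finset.mem_insert_self i s)
    have h1 : ∑ a ∈ insert i s, ∑ b ∈ insert i s,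
        (c a * (r a - r i) / (r a + r i)) * (c b * (r b - r i) / (r b + r i)) / (r a + r b)
        = ∑ a ∈ s, ∑ b ∈ s,
        (c a * (r a - r i) / (r a + r i)) * (c b * (r b - r i) / (r b + r i)) / (r a + r b) := by
      rw [Finset.sum_insert hi]
      have h2 : ∀ a, ∑ b ∈ insert i s,
        (c a * (r a - r i) / (r a + r i)) * (c b * (r b - r i) / (r b + r i)) / (r a + r b)
        = ∑ b ∈ s,
        (c a * (r a - r i) / (r a + r i)) * (c b * (r b - r i) / (r b + r i)) / (r a + r b) := by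
        intro a
        rw [Finset.sum_insert hi]
        simp
      simp only [h2]
      simp
    rw [h1]
    have h3 := ih (fun a ha => hr a (Finset.mem_insert_of_mem ha))
      (fun a => c a * (r a - r i) / (r a + r i))
    positivity

/-- Lower bound for the Cauchy form by a rank one test. -/
theorem cauchy_lower {ι : Type*} [DecidableEq ι] (s : Finset ι) (r c : ι → ℝ)
    (hr : ∀ a ∈ s, 0 < r a) (η : ℝ) (hη : 0 < η) :
    2 * η * (∑ a ∈ s, c a / (r a + η)) ^ 2 ≤ ∑ a ∈ s, ∑ b ∈ s, c a * c b / (r a + r b) := by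
  rw [cauchy_ident s r c hr η hη]
  have := cauchy_psd s r hr (fun a => c a * (r a - η) / (r a + η))
  linarith

/-- `G ≥ 0`. -/
theorem G_nonneg {w z lam M : ℝ} (hz : 0 < z) (hwz : z < w) (hlam : lam = 1 - 2 * w * z)
    (hy : 0 < 1 - 4 * w * z) (hM : 0 ≤ M) (hM2 : 2 * M ≤ lam) :
    0 ≤ (lam - 2 * w ^ 2) * M + w ^ 2 * (lam - 2 * z ^ 2) := by
  have hw : 0 < w := hz.trans hwz
  have hzz : z * z ≤ w * z := by nlinarith
  rcases le_total (2 * w ^ 2) lam with h | h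
  · have : 0 ≤ lam - 2 * z ^ 2 := by nlinarith
    have h1 : 0 ≤ (lam - 2 * w ^ 2) * M := mul_nonneg (by linarith) hM
    have h2 : 0 ≤ w ^ 2 * (lam - 2 * z ^ 2) := by positivity
    linarith
  · have h1 : (2 * w ^ 2 - lam) * (2 * M) ≤ (2 * w ^ 2 - lam) * lam :=
      mul_le_mul_of_nonneg_left hM2 (by linarith)
    have h2 : 0 ≤ (lam - 2 * w * z) * (lam + 2 * w * z) := by
      apply mul_nonneg
      · rw [hlam]; linarith
      · rw [hlam]; linarith
    nlinarith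

/-- The identity behind the key inequality. -/
theorem key_ident {w z lam M v κ : ℝ} (hz : 0 < z) (hwz : z < w) (hlam : lam = 1 - 2 * w * z)
    (hM : 0 ≤ M) (hκ : κ = w * (1 - 4 * w * z) / (w - z)) :
    κ * (M - 2 * z * v + z ^ 2) - (M - w * z) * (lam - 4 * w ^ 2 * z * v / (M + w ^ 2))
      = z * ((lam - 2 * w ^ 2) * M + w ^ 2 * (lam - 2 * z ^ 2)) / ((w - z) * (M + w ^ 2))
        * (M + w ^ 2 - 2 * w * v) := by
  have hw : 0 < w := hz.trans hwz
  have h1 : w - z ≠ 0 := by linarith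
  have h2 : M + w ^ 2 ≠ 0 := by positivity
  subst hlam
  subst hκ
  field_simp
  ring


/-- Case `M ≥ w²`. -/
theorem caseA {w z lam M P p κ : ℝ} (hz : 0 < z) (hwz : z < w) (hlam : lam = 1 - 2 * w * z)
    (hM : 0 ≤ M) (hMP : M ≤ P) (hP : 2 * P ≤ lam) (hp : p ^ 2 = P)
    (hκ : κ = w * (1 - 4 * w * z) / (w - z)) :
    κ - (lam - 8 * w ^ 3 * z * (z + w) * p / ((lam + 2 * w ^ 2) * (P + w ^ 2)))
      ≤ z * ((lam - 2 * w ^ 2) * M + w ^ 2 * (lam - 2 * z ^ 2)) / ((w - z) * (M + w ^ 2)) := by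
  have hw : 0 < w := hz.trans hwz
  have h1 : 0 < w - z := by linarith
  have h2 : 0 < M + w ^ 2 := by positivity
  have h3 : 0 < P + w ^ 2 := by nlinarith
  have h4 : 0 < lam + 2 * w ^ 2 := by nlinarith
  have e1 : κ - lam = z * (lam - 2 * w ^ 2) / (w - z) := by
    subst hlam; subst hκ
    have : w - z ≠ 0 := h1.ne'
    field_simp
    ring
  have e2 : z * ((lam - 2 * w ^ 2) * M + w ^ 2 * (lam - 2 * z ^ 2)) / ((w - z) * (M + w ^ 2))
      = z * (lam - 2 * w ^ 2) / (w - z) + 2 * z * w ^ 2 * (w + z) / (M + w ^ 2) := by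
    have : w - z ≠ 0 := h1.ne'
    field_simp
    ring
  have e3 : 8 * w ^ 3 * z * (z + w) * p / ((lam + 2 * w ^ 2) * (P + w ^ 2))
      ≤ 2 * z * w ^ 2 * (w + z) / (M + w ^ 2) := by
    rw [div_le_div_iff₀ (by positivity) h2]
    have a1 : 4 * w * p ≤ lam + 2 * w ^ 2 := by nlinarith [sq_nonneg (p - w)]
    have a2 : 4 * w * p * (M + w ^ 2) ≤ (lam + 2 * w ^ 2) * (P + w ^ 2) :=
      mul_le_mul a1 (by linarith) h2.le h4.le
    have a3 : 0 ≤ 2 * z * w ^ 2 * (w + z) := by positivity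
    nlinarith [mul_le_mul_of_nonneg_left a2 a3]
  rw [e2]
  linarith

/-- `K p` is at most `4 w² z (z+w) / (lam + 2 w²)`. -/
theorem Kp_le {w z lam P p : ℝ} (hz : 0 < z) (hw : 0 < w) (hlam : 0 < lam)
    (hp : p ^ 2 = P) :
    8 * w ^ 3 * z * (z + w) * p / ((lam + 2 * w ^ 2) * (P + w ^ 2))
      ≤ 4 * w ^ 2 * z * (z + w) / (lam + 2 * w ^ 2) := by
  have h3 : 0 < P + w ^ 2 := by rw [← hp]; positivity
  have h4 : 0 < lam + 2 * w ^ 2 := by positivity
  rw [div_le_div_iff₀ (by positivity) h4]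
  have a1 : 2 * w * p ≤ P + w ^ 2 := by nlinarith [sq_nonneg (p - w)]
  have a3 : 0 ≤ 4 * w ^ 2 * z * (z + w) * (lam + 2 * w ^ 2) := by positivity
  nlinarith [mul_le_mul_of_nonneg_left a1 a3]

/-- Case `M < w²`. -/
theorem caseB {w z lam M P p κ : ℝ} (hz : 0 < z) (hwz : z < w) (hlam : lam = 1 - 2 * w * z)
    (hy : 0 < 1 - 4 * w * z)
    (hM : w * z ≤ M) (hMw : M ≤ w ^ 2) (hMP : M ≤ P) (hP : 2 * P ≤ lam)
    (hp : p ^ 2 = P) (hκ : κ = w * (1 - 4 * w * z) / (w - z)) :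
    (κ - (lam - 8 * w ^ 3 * z * (z + w) * p / ((lam + 2 * w ^ 2) * (P + w ^ 2)))) * (M / w ^ 2)
      ≤ z * ((lam - 2 * w ^ 2) * M + w ^ 2 * (lam - 2 * z ^ 2)) / ((w - z) * (M + w ^ 2)) := by
  have hw : 0 < w := hz.trans hwz
  have hM0 : 0 < M := lt_of_lt_of_le (by positivity) hM
  have h1 : 0 < w - z := by linarith
  have h2 : 0 < M + w ^ 2 := by positivity
  have hl : 0 < lam := by nlinarith
  have h4 : 0 < lam + 2 * w ^ 2 := by positivity
  have hK := Kp_le (z := z) (w := w) hz hw hl hp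
  have e1 : κ - lam = z * (lam - 2 * w ^ 2) / (w - z) := by
    subst hlam; subst hκ
    have : w - z ≠ 0 := h1.ne'
    field_simp
    ring
  have e3 : 4 * w ^ 2 * z * (z + w) / (lam + 2 * w ^ 2) * (M / w ^ 2)
      ≤ z * (lam * (w ^ 4 - M ^ 2) + 2 * w ^ 2 * (M ^ 2 - w ^ 2 * z ^ 2))
          / ((w - z) * (M + w ^ 2) * w ^ 2) := by
    have e4 : 4 * w ^ 2 * z * (z + w) / (lam + 2 * w ^ 2) * (M / w ^ 2)
        = 4 * z * (z + w) * M / (lam + 2 * w ^ 2) := by
      field_simp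
    rw [e4, div_le_div_iff₀ h4 (by positivity)]
    have b1 : 0 ≤ w ^ 4 - M ^ 2 := by nlinarith [mul_nonneg hM0.le (sub_nonneg.2 hMw)]
    have b2 : 0 ≤ M ^ 2 - w ^ 2 * z ^ 2 := by
      nlinarith [mul_nonneg (sub_nonneg.2 hM) (by positivity : (0:ℝ) ≤ M + w * z)]
    have b3 : 2 * M ≤ lam := by linarith
    have b4 : 2 * M * (w ^ 4 - M ^ 2) ≤ lam * (w ^ 4 - M ^ 2) :=
      mul_le_mul_of_nonneg_right b3 b1
    have b5 : (2 * M * (w ^ 4 - M ^ 2) + 2 * w ^ 2 * (M ^ 2 - w ^ 2 * z ^ 2)) * (2 * M + 2 * w ^ 2)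
        ≤ (lam * (w ^ 4 - M ^ 2) + 2 * w ^ 2 * (M ^ 2 - w ^ 2 * z ^ 2)) * (lam + 2 * w ^ 2) := by
      apply mul_le_mul
      · linarith
      · linarith
      · positivity
      · positivity
    have b6 : 0 ≤ (w ^ 2 - M) * (M ^ 2 - w ^ 2 * z ^ 2) := mul_nonneg (by linarith) b2
    have b7 : 4 * (z + w) * M * ((w - z) * (M + w ^ 2) * w ^ 2)
        ≤ (2 * M * (w ^ 4 - M ^ 2) + 2 * w ^ 2 * (M ^ 2 - w ^ 2 * z ^ 2)) * (2 * M + 2 * w ^ 2) := by
      nlinarith [mul_nonneg h2.le b6]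
    nlinarith [mul_le_mul_of_nonneg_left (b7.trans b5) hz.le]
  have e5 : z * ((lam - 2 * w ^ 2) * M + w ^ 2 * (lam - 2 * z ^ 2)) / ((w - z) * (M + w ^ 2))
      = z * (lam - 2 * w ^ 2) / (w - z) * (M / w ^ 2)
        + z * (lam * (w ^ 4 - M ^ 2) + 2 * w ^ 2 * (M ^ 2 - w ^ 2 * z ^ 2))
          / ((w - z) * (M + w ^ 2) * w ^ 2) := by
    have : w - z ≠ 0 := h1.ne'
    field_simp
    ring
  rw [e5]
  have hMw0 : 0 ≤ M / w ^ 2 := by positivity
  have e6 := mul_le_mul_of_nonneg_right hK hMw0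
  have e7 : (κ - (lam - 8 * w ^ 3 * z * (z + w) * p / ((lam + 2 * w ^ 2) * (P + w ^ 2))))
        * (M / w ^ 2)
      = (κ - lam) * (M / w ^ 2)
        + 8 * w ^ 3 * z * (z + w) * p / ((lam + 2 * w ^ 2) * (P + w ^ 2)) * (M / w ^ 2) := by
    ring
  rw [e7, e1]
  linarith

/-- The key per-index inequality, for `z < w`. -/
theorem key {w z lam M P p v κ α : ℝ} (hz : 0 < z) (hwz : z < w) (hlam : lam = 1 - 2 * w * z)
    (hy : 0 < 1 - 4 * w * z)
    (hM : w * z ≤ M) (hMP : M ≤ P) (hP : 2 * P ≤ lam) (hp : p ^ 2 = P)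
    (hv : v ^ 2 ≤ M)
    (hκ : κ = w * (1 - 4 * w * z) / (w - z))
    (hα : α = min κ (lam - 8 * w ^ 3 * z * (z + w) * p / ((lam + 2 * w ^ 2) * (P + w ^ 2)))) :
    (M - w * z) * (lam - 4 * w ^ 2 * z * v / (M + w ^ 2))
      ≤ κ * (v - z) ^ 2 + α * (M - v ^ 2) := by
  have hw : 0 < w := hz.trans hwz
  have hM0 : 0 < M := lt_of_lt_of_le (by positivity) hM
  have h1 : 0 < w - z := by linarith
  have h2 : 0 < M + w ^ 2 := by positivity
  have hid := key_ident (v := v) hz hwz hlam hM0.le hκ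
  set G := z * ((lam - 2 * w ^ 2) * M + w ^ 2 * (lam - 2 * z ^ 2)) / ((w - z) * (M + w ^ 2))
    with hG
  have hG0 : 0 ≤ G := by
    have := G_nonneg hz hwz hlam hy hM0.le (by linarith)
    positivity
  have hF : 0 ≤ M + w ^ 2 - 2 * w * v := by nlinarith [sq_nonneg (v - w)]
  have hle : (κ - α) * (M - v ^ 2) ≤ G * (M + w ^ 2 - 2 * w * v) := by
    rcases le_total κ (lam - 8 * w ^ 3 * z * (z + w) * p / ((lam + 2 * w ^ 2) * (P + w ^ 2)))
      with h | h
    · rw [min_eq_left h] at hα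
      rw [hα, sub_self, zero_mul]
      positivity
    · rw [min_eq_right h] at hα
      have hκα : 0 ≤ κ - α := by rw [hα]; linarith
      rcases le_total (w ^ 2) M with h3 | h3
      · have hA := caseA hz hwz hlam hM0.le hMP hP hp hκ
        rw [← hα, ← hG] at hA
        calc (κ - α) * (M - v ^ 2) ≤ (κ - α) * (M + w ^ 2 - 2 * w * v) :=
              mul_le_mul_of_nonneg_left (by nlinarith [sq_nonneg (v - w)]) hκα
          _ ≤ G * (M + w ^ 2 - 2 * w * v) := mul_le_mul_of_nonneg_right hA hF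
      · have hB := caseB hz hwz hlam hy hM h3 hMP hP hp hκ
        rw [← hα, ← hG] at hB
        have hv2 : M - v ^ 2 ≤ M / w ^ 2 * (M + w ^ 2 - 2 * w * v) := by
          have : M / w ^ 2 * (M + w ^ 2 - 2 * w * v) - (M - v ^ 2) = ((M - w * v) / w) ^ 2 := by
            field_simp
            ring
          nlinarith [sq_nonneg ((M - w * v) / w)]
        calc (κ - α) * (M - v ^ 2) ≤ (κ - α) * (M / w ^ 2 * (M + w ^ 2 - 2 * w * v)) :=
              mul_le_mul_of_nonneg_left hv2 hκα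
          _ = (κ - α) * (M / w ^ 2) * (M + w ^ 2 - 2 * w * v) := by ring
          _ ≤ G * (M + w ^ 2 - 2 * w * v) := mul_le_mul_of_nonneg_right hB hF
  nlinarith [hid, hle]

end H22.LW
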